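import Pool.Agent.AsyncSeg.Final

/-!
Approximate covering of the segment is not solvable under the asynchronous scheduler with
neighbour visibility.
-/

namespace Pool.Agent.Results.MP_362848_lc.Unsolvable

open Pool.Agent.AsyncSeg

/-- For every protocol `f` there are a number `m + 2` of sensors, a frame `c` (the same local
coordinate system for all the sensors), a distance `δ > 0`, an admissible asynchronous execution
`E` of `f` (which includes the initial placement) and some `ε > 0` such that the sensors never
reach an `ε`-approximate covering. -/
theorem result : ∀ f : Protocol, ∃ (m : ℕ) (c : Frame) (δ : ℝ) (E : Execution (m + 2)),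
    Admissible f (fun _ => c) δ E ∧ ∃ ε > 0, ∀ t, 0 ≤ t → ¬ Covering (E.config t) ε :=
  exists_bad

end Pool.Agent.Results.MP_362848_lc.Unsolvable
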